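import Pool.Agent.H71.VK.Stmt
import Pool.Agent.H16.TK.BF

/-! HB: the first half: a countable set of types such that big components are rare. -/

set_option autoImplicit false

open Set Pool.Agent.TK

namespace Pool.Agent.H71.VK

theorem pf_HB {C : Type} {c0 : C} [MeasurableSpace C] (hLOP : LOP C) (hNFM : NFM C)
    (hTYC : TYC C) (hCNT : CNT C c0) (hFINB : FINB C c0) : HB C c0 := by
  intro X hX hval hinv hP
  obtain ⟨b0, hb0⟩ := hLOP X hX hinv
  obtain ⟨b, hb, hbase⟩ : ∃ b : Rk, RLe C b0 b ∧ RLe C (Rk.lim (Rk.lim om)) b :=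
    ⟨Sh (Rk.lim (Rk.lim om)) b0, RLe.sh_right _ _, RLe.sh_left _ _⟩
  have htc : TC X := hTYC X hX hinv hP
  have hyp : Hyp c0 b X :=
    { val := hval
      cl := fun M hM M' h => hb0 M hM M' (hb _ _ _ _ _ h)
      tc := htc
      nf := hNFM X hP
      base := hbase }
  obtain ⟨T, hT, -, hT2⟩ := hCNT X hval htc b
  refine ⟨T, hT, ?_⟩
  intro M hM a
  refine (hFINB X b hyp M hM a).subset ?_
  rintro D ⟨hD, hnot⟩
  refine ⟨hD, fun hs => hnot ?_⟩
  obtain ⟨v, hv, rfl⟩ := hD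
  exact hT2 M hM a v hv hs

end Pool.Agent.H71.VK
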