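import Pool.Agent.H71.VK.Stmt

/-! DVT: divisibility is inherited by the automorphism group of the structure. -/

set_option autoImplicit false

open Set Pool.Agent.TK Topology

namespace Pool.Agent.H71.VK

attribute [local instance] Pool.Agent.H71.permTop

lemma isOpen_map_eq (l : List ℕ) : ∀ m : List ℕ,
    IsOpen {h : Equiv.Perm ℕ | l.map h = m} := by
  induction l with
  | nil =>
    intro m
    have : {h : Equiv.Perm ℕ | ([] : List ℕ).map h = m} = {_h : Equiv.Perm ℕ | [] = m} := by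
      ext h
      simp
    rw [this]
    exact isOpen_const
  | cons u l ih =>
    intro m
    cases m with
    | nil =>
      have : {h : Equiv.Perm ℕ | (u :: l).map h = []} = ∅ := by
        ext h
        simp
      rw [this]
      exact isOpen_empty
    | cons v m =>
      have : {h : Equiv.Perm ℕ | (u :: l).map h = v :: m} =
          {h : Equiv.Perm ℕ | h u = v} ∩ {h | l.map h = m} := by
        ext h
        simp
      rw [this]
      exact ((isOpen_discrete {v}).preimage (Pool.Agent.H71.continuous_perm_apply u)).inter (ih m)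

lemma isOpen_map_prop (l : List ℕ) (Q : List ℕ → Prop) :
    IsOpen {h : Equiv.Perm ℕ | Q (l.map h)} := by
  have : {h : Equiv.Perm ℕ | Q (l.map h)} =
      ⋃ m : {m // Q m}, {h : Equiv.Perm ℕ | l.map h = m.1} := by
    ext h
    simp only [mem_ofPred_eq, mem_iUnion]
    constructor
    · intro hq
      exact ⟨⟨_, hq⟩, rfl⟩
    · rintro ⟨⟨m, hm⟩, h2⟩
      rw [h2]
      exact hm
  rw [this]
  exact isOpen_iUnion fun m => isOpen_map_eq l m.1

lemma isClosed_map_prop (l : List ℕ) (Q : List ℕ → Prop) :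
    IsClosed {h : Equiv.Perm ℕ | Q (l.map h)} := by
  rw [← isOpen_compl_iff]
  exact isOpen_map_prop l fun m => ¬ Q m

lemma isClosed_AutG {C : Type} (M : St C) : IsClosed (AutG M : Set (Equiv.Perm ℕ)) := by
  have : (AutG M : Set (Equiv.Perm ℕ)) =
      (⋂ u, ⋂ v, {h : Equiv.Perm ℕ | (fun m : List ℕ => M.1 u v = M.1 (m.getD 0 0) (m.getD 1 0))
        ([u, v].map h)}) ∩ ⋂ l : List ℕ, {h : Equiv.Perm ℕ | (fun m => M.2 l = M.2 m) (l.map h)} := by
    ext h
    simp only [SetLike.mem_coe, mem_inter_iff, mem_iInter, mem_ofPred_eq]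
    exact Iff.rfl
  rw [this]
  exact (isClosed_iInter fun u => isClosed_iInter fun v => isClosed_map_prop [u, v]
      (fun m : List ℕ => M.1 u v = M.1 (m.getD 0 0) (m.getD 1 0))).inter
    (isClosed_iInter fun l => isClosed_map_prop l (fun m => M.2 l = M.2 m))

theorem dvt_core {C : Type} {c0 : C} (hFLI : FLI C c0) (hFLC : FLC C) (hLIFT : LIFT C) :
    DVT C c0 := by
  intro T M hM ν φ hF hdiv
  obtain ⟨H, hHle, hHcl, ψ, hψs, hψo⟩ := hdiv
  have hex : ∀ h : AutG M, ∃ g : Equiv.Perm ℕ, (∀ i j, φ (g i) (g j) = φ i j) ∧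
      ∀ l, g (ν l) = ν (l.map (h : Equiv.Perm ℕ)) := by
    intro h
    exact hFLI T M M ν ν φ φ h hM hM hF hF h.2
  choose r hr1 hr2 using hex
  have hmul : ∀ a b : AutG M, r (a * b) = r a * r b := by
    intro a b
    ext n
    obtain ⟨l, rfl⟩ := hF.surj n
    rw [hr2, Equiv.Perm.mul_apply, hr2, hr2, List.map_map]
    rfl
  obtain ⟨ρ, hρ⟩ : ∃ ρ : AutG M →* Equiv.Perm ℕ, ∀ h l, ρ h (ν l) = ν (l.map (h : Equiv.Perm ℕ)) :=
    ⟨MonoidHom.mk' r hmul, fun h l => hr2 h l⟩
  -- continuity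
  have hc0 : ∀ l : List ℕ, Continuous fun x : AutG M => ν (l.map (x : Equiv.Perm ℕ)) := by
    intro l
    rw [continuous_discrete_rng]
    intro m
    exact (isOpen_map_prop l fun k => ν k ∈ ({m} : Set ℕ)).preimage continuous_subtype_val
  have hρc : Continuous ρ := by
    apply Pool.Agent.H71.continuous_to_perm
    · intro n
      obtain ⟨l, rfl⟩ := hF.surj n
      simp only [hρ]
      exact hc0 l
    · intro n
      obtain ⟨l, rfl⟩ := hF.surj n
      have h1 : ∀ x : AutG M, (ρ x).symm (ν l) = ν (l.map (x : Equiv.Perm ℕ).symm) := by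
        intro x
        rw [Equiv.symm_apply_eq, hρ, List.map_map]
        congr 1
        have h2 : (⇑(x : Equiv.Perm ℕ) ∘ ⇑(x : Equiv.Perm ℕ).symm) = id := by
          funext k
          simp
        rw [h2, List.map_id]
      simp only [h1]
      rw [continuous_discrete_rng]
      intro m
      have h3 : (fun x : AutG M => ν (l.map (x : Equiv.Perm ℕ).symm)) ⁻¹' {m} =
          ⋃ k : {k // ν k = m ∧ k.length = l.length},
            {x : AutG M | k.1.map (x : Equiv.Perm ℕ) = l} := by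
        ext x
        simp only [mem_preimage, mem_singleton_iff, mem_iUnion, mem_ofPred_eq]
        constructor
        · intro hx
          refine ⟨⟨_, hx, List.length_map _⟩, ?_⟩
          simp [List.map_map, Function.comp_def]
        · rintro ⟨⟨k, hk, hk'⟩, h4⟩
          rw [← h4, List.map_map]
          simp only [Function.comp_def, Equiv.symm_apply_apply, List.map_id']
          exact hk
      rw [h3]
      exact isOpen_iUnion fun k => (isOpen_map_eq k.1 l).preimage continuous_subtype_val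
  have hG : ∀ x : ((H.comap ρ).map (AutG M).subtype : Subgroup (Equiv.Perm ℕ)),
      (x : Equiv.Perm ℕ) ∈ AutG M := by
    rintro ⟨x, y, -, rfl⟩
    exact y.2
  have hG2 : ∀ x : ((H.comap ρ).map (AutG M).subtype : Subgroup (Equiv.Perm ℕ)),
      ρ ⟨x, hG x⟩ ∈ H := by
    rintro ⟨x, y, hy, rfl⟩
    exact hy
  have hcont : Continuous fun x : ((H.comap ρ).map (AutG M).subtype : Subgroup (Equiv.Perm ℕ)) =>
      (⟨ρ ⟨x, hG x⟩, hG2 x⟩ : H) := by
    apply Continuous.subtype_mk
    exact hρc.comp (continuous_subtype_val.subtype_mk hG)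
  refine ⟨(H.comap ρ).map (AutG M).subtype, ?_, ?_, ?_⟩
  · rintro x ⟨y, -, rfl⟩
    exact y.2
  · rw [Subgroup.coe_map]
    exact (isClosed_AutG M).isClosedEmbedding_subtypeVal.isClosedMap _ (hHcl.preimage hρc)
  · refine ⟨MonoidHom.mk' (fun x => ψ ⟨ρ ⟨x, hG x⟩, hG2 x⟩) ?_, ?_, ?_⟩
    · intro a b
      rw [← map_mul]
      congr 1
      apply Subtype.ext
      have h5 : (⟨((a * b : ((H.comap ρ).map (AutG M).subtype : Subgroup (Equiv.Perm ℕ))) :
          Equiv.Perm ℕ), hG (a * b)⟩ : AutG M) = ⟨a, hG a⟩ * ⟨b, hG b⟩ := rfl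
      show ρ _ = ρ _ * ρ _
      rw [← map_mul, ← h5]
    · intro σ
      obtain ⟨h, rfl⟩ := hψs σ
      have hh : ∀ i j, φ ((h : Equiv.Perm ℕ) i) ((h : Equiv.Perm ℕ) j) = φ i j := hHle h.2
      obtain ⟨hcor, honto⟩ := hFLC T M M ν ν φ φ h hF hF hh
      obtain ⟨m, hm⟩ := hcor.tot []
      obtain ⟨k, hk, -, hk2⟩ := hLIFT T M M _ hcor honto [] m hm
      have hρk : ρ ⟨k, hk⟩ = h := by
        ext n
        obtain ⟨l, rfl⟩ := hF.surj n
        rw [hρ]
        exact (hk2 l).symm
      have hkm : k ∈ (H.comap ρ).map (AutG M).subtype := by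
        refine ⟨⟨k, hk⟩, ?_, rfl⟩
        rw [SetLike.mem_coe, Subgroup.mem_comap, hρk]
        exact h.2
      refine ⟨⟨k, hkm⟩, ?_⟩
      show ψ ⟨ρ ⟨k, _⟩, _⟩ = ψ h
      congr 1
      exact Subtype.ext hρk
    · intro n m
      exact (hψo n m).preimage hcont

theorem pf_DVT {C : Type} {c0 : C} (_hRTR : RTR C c0) (_hRLB : RLB C) (hFLI : FLI C c0)
    (hFLC : FLC C) (hLIFT : LIFT C) : DVT C c0 :=
  dvt_core hFLI hFLC hLIFT

end Pool.Agent.H71.VK
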